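import Mathlib

namespace Pool.Agent.Results.MP_e0e877_co.PaletteMonotone

/-- `AliceWins G k aliceToMove c`: in the domatic number game on `G` with palette `Fin k`, from the
position `c` (`none` = not yet chosen) with the given player to move, Alice has a winning
strategy. -/
inductive AliceWins {V : Type} [DecidableEq V] (G : SimpleGraph V) (k : ℕ) :
    Bool → (V → Option (Fin k)) → Prop
  | done (t : Bool) (c : V → Option (Fin k)) : (∀ v, c v ≠ none) →
      (∀ x (a : Fin k), ∃ y, (y = x ∨ G.Adj x y) ∧ c y = some a) → AliceWins G k t c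
  | alice (c : V → Option (Fin k)) (v : V) (a : Fin k) : c v = none →
      AliceWins G k false (Function.update c v (some a)) → AliceWins G k true c
  | bob (c : V → Option (Fin k)) : (∃ v, c v = none) →
      (∀ v (a : Fin k), c v = none → AliceWins G k true (Function.update c v (some a))) →
      AliceWins G k false c

theorem aux {V : Type} [DecidableEq V] (G : SimpleGraph V) (k l : ℕ) (π : Fin l → Fin k)
    (hπ : Function.Surjective π) (t : Bool) (c : V → Option (Fin l)) (h : AliceWins G l t c) :
    AliceWins G k t (fun v => (c v).map π) := by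
  have upd : ∀ (c : V → Option (Fin l)) v a, (fun w => (Function.update c v (some a) w).map π) =
      Function.update (fun w => (c w).map π) v (some (π a)) := by
    intro c v a
    funext w
    by_cases hw : w = v
    · subst hw; simp
    · simp [hw]
  induction h with
  | done t c h1 h2 =>
    refine .done _ _ (fun v => by simpa using h1 v) (fun x a => ?_)
    obtain ⟨b, rfl⟩ := hπ a
    obtain ⟨y, hy, hc⟩ := h2 x b
    exact ⟨y, hy, by simp [hc]⟩
  | alice c v a h1 _ ih =>
    rw [upd] at ih
    exact .alice _ v (π a) (by simp [h1]) ih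
  | bob c h1 _ ih =>
    obtain ⟨v, hv⟩ := h1
    refine .bob _ ⟨v, by simp [hv]⟩ (fun w a hw => ?_)
    obtain ⟨b, rfl⟩ := hπ a
    rw [← upd]
    exact ih w b (by simpa using hw)

theorem result : ∀ (V : Type) [Fintype V] [DecidableEq V] (G : SimpleGraph V) (k : ℕ), 1 ≤ k →
    ∀ aliceFirst : Bool, AliceWins G (k + 1) aliceFirst (fun _ => none) →
      AliceWins G k aliceFirst (fun _ => none) := by
  intro V _ _ G k hk t h
  have := aux G k (k + 1) (fun a => if h : a.val < k then ⟨a.val, h⟩ else ⟨0, hk⟩)
    (fun b => ⟨b.castSucc, by simp⟩) t _ h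
  simpa using this

end Pool.Agent.Results.MP_e0e877_co.PaletteMonotone
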